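import Mathlib
import Pool.Agent.H14.SumDiff

set_option autoImplicit false

namespace Pool.Agent.Results.MP_ecebd1_co.BipartiteGap

open Pool.Agent.H14.SumDiff

/-- `df(G) - ⌈sm(G)/2⌉` is unbounded on finite bipartite graphs. -/
theorem result (k : ℕ) : ∃ (V : Type) (_ : Finite V) (G : SimpleGraph V), G ≠ ⊥ ∧ G.IsBipartite ∧
    (sm G + 1) / 2 + k ≤ df G := by
  obtain ⟨V, i, G, h1, h2, h3, h4⟩ := main (2 * k + 2)
  exact ⟨V, i, G, h1, h2, by omega⟩

end Pool.Agent.Results.MP_ecebd1_co.BipartiteGap
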